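import Pool.Agent.helper82.LEQ.Spec

set_option autoImplicit false

/-! # Row lq:DE: fixed points of a direct product -/

open QS (Lef EAb)

namespace LEQ

open scoped BigOperators

theorem DE_sup {G : Type} [Group G] (A B : Subgroup G) (h : ∀ a ∈ A, ∀ b ∈ B, a * b = b * a)
    {x : G} (hx : x ∈ A ⊔ B) : ∃ a ∈ A, ∃ b ∈ B, a * b = x := by
  have key : A ⊔ B ≤ ({ carrier := {y | ∃ a ∈ A, ∃ b ∈ B, a * b = y}
                        one_mem' := ⟨1, A.one_mem, 1, B.one_mem, one_mul 1⟩
                        mul_mem' := by
                          rintro y z ⟨a, ha, b, hb, rfl⟩ ⟨a', ha', b', hb', rfl⟩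
                          refine ⟨a * a', A.mul_mem ha ha', b * b', B.mul_mem hb hb', ?_⟩
                          have := h a' ha' b hb
                          calc a * a' * (b * b') = a * (a' * b) * b' := by group
                            _ = a * b * (a' * b') := by rw [this]; group
                        inv_mem' := by
                          rintro y ⟨a, ha, b, hb, rfl⟩
                          refine ⟨a⁻¹, A.inv_mem ha, b⁻¹, B.inv_mem hb, ?_⟩
                          have := h a ha b hb
                          rw [this, mul_inv_rev] } : Subgroup G) := by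
    apply sup_le
    · intro a ha
      exact ⟨a, ha, 1, B.one_mem, mul_one a⟩
    · intro b hb
      exact ⟨1, A.one_mem, b, hb, one_mul b⟩
  exact key hx

theorem DE : DE_stmt := by
  intro G _ A B E hD hA hB
  refine ⟨?_, ?_, ?_⟩
  · apply le_antisymm
    · intro g hg
      obtain ⟨hg1, hg2⟩ := Subgroup.mem_inf.1 hg
      obtain ⟨a, ha, b, hb, rfl⟩ := DE_sup A B hD.1 hg1
      have hC : a ∈ Cn E ∧ b ∈ Cn E := by
        unfold Cn at hg2 ⊢
        rw [Subgroup.mem_centralizer_iff] at hg2 ⊢
        rw [Subgroup.mem_centralizer_iff]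
        have key : ∀ e ∈ E, e * a * e⁻¹ = a ∧ e * b * e⁻¹ = b := by
          intro e he
          have e1 : e * (a * b) = a * b * e := hg2 e he
          have hea : e * a * e⁻¹ ∈ A := (hA e he a).1 ha
          have heb : e * b * e⁻¹ ∈ B := (hB e he b).1 hb
          have e2 : e * a * e⁻¹ * (e * b * e⁻¹) = a * b := by
            calc e * a * e⁻¹ * (e * b * e⁻¹) = e * (a * b) * e⁻¹ := by group
              _ = a * b := by rw [e1, mul_inv_cancel_right]
          have e3 : a⁻¹ * (e * a * e⁻¹) = b * (e * b * e⁻¹)⁻¹ := by
            rw [inv_mul_eq_iff_eq_mul, ← mul_assoc, ← e2, mul_inv_cancel_right]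
          have e4 : a⁻¹ * (e * a * e⁻¹) ∈ A ⊓ B := by
            refine Subgroup.mem_inf.2 ⟨A.mul_mem (A.inv_mem ha) hea, ?_⟩
            rw [e3]
            exact B.mul_mem hb (B.inv_mem heb)
          rw [hD.2, Subgroup.mem_bot] at e4
          refine ⟨(inv_mul_eq_one.1 e4).symm, ?_⟩
          rw [e4] at e3
          exact (mul_inv_eq_one.1 e3.symm).symm
        refine ⟨fun e he => ?_, fun e he => ?_⟩
        · have := (key e he).1
          rw [mul_inv_eq_iff_eq_mul] at this
          exact this
        · have := (key e he).2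
          rw [mul_inv_eq_iff_eq_mul] at this
          exact this
      exact Subgroup.mul_mem _ (Subgroup.mem_sup_left (Subgroup.mem_inf.2 ⟨ha, hC.1⟩))
        (Subgroup.mem_sup_right (Subgroup.mem_inf.2 ⟨hb, hC.2⟩))
    · exact sup_le (inf_le_inf le_sup_left le_rfl) (inf_le_inf le_sup_right le_rfl)
  · intro a ha b hb
    exact hD.1 a (Subgroup.mem_inf.1 ha).1 b (Subgroup.mem_inf.1 hb).1
  · apply le_bot_iff.1
    rw [← hD.2]
    exact inf_le_inf inf_le_left inf_le_left

end LEQ
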