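import Pool.Agent.helper82.LEQ.Spec

set_option autoImplicit false

/-! # Row lq:FAC: the sum over the elements all of whose components lie in the given sets -/

open QS (Lef EAb)

namespace LEQ

open scoped BigOperators

/-- the group `H_J` -/
def FAC_H {G : Type} [Group G] {ι : Type} (L : ι → Subgroup G) (J : Set ι) : Subgroup G :=
  NJ L J ⊔ Cc L

/-- the index set of the sum `S_J` -/
noncomputable def FAC_X {G : Type} [Group G] [Finite G] {ι : Type} (L : ι → Subgroup G)
    (U : ι → Set G) (c : G) (J : Set ι) : Finset G :=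
  FS (fun g : G => g ∈ FAC_H L J ∧ g * c⁻¹ ∈ NJ L J ∧ ∀ j ∈ J, pr L j g ∈ U j)

theorem FAC_NJ_insert {G : Type} [Group G] {ι : Type} (L : ι → Subgroup G) (J : Set ι) (i : ι) :
    NJ L (insert i J) = L i ⊔ NJ L J := by
  unfold NJ
  exact iSup_insert

theorem FAC_NJ_empty {G : Type} [Group G] {ι : Type} (L : ι → Subgroup G) :
    NJ L (∅ : Set ι) = ⊥ := by
  unfold NJ
  simp

theorem FAC_NJ_single {G : Type} [Group G] {ι : Type} (L : ι → Subgroup G) (i : ι) :
    NJ L ({i} : Set ι) = L i := by
  unfold NJ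
  simp

theorem FAC_H_insert {G : Type} [Group G] {ι : Type} (L : ι → Subgroup G) (J : Set ι) (i : ι) :
    FAC_H L (insert i J) = L i ⊔ FAC_H L J := by
  unfold FAC_H
  rw [FAC_NJ_insert, sup_assoc]

theorem FAC_sup {G : Type} [Group G] (A B : Subgroup G) (h : ∀ a ∈ A, ∀ b ∈ B, a * b = b * a)
    {x : G} (hx : x ∈ A ⊔ B) : ∃ a ∈ A, ∃ b ∈ B, a * b = x := by
  have key : A ⊔ B ≤ ({ carrier := {y | ∃ a ∈ A, ∃ b ∈ B, a * b = y}
                        one_mem' := ⟨1, A.one_mem, 1, B.one_mem, one_mul 1⟩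
                        mul_mem' := by
                          rintro y z ⟨a, ha, b, hb, rfl⟩ ⟨a', ha', b', hb', rfl⟩
                          refine ⟨a * a', A.mul_mem ha ha', b * b', B.mul_mem hb hb', ?_⟩
                          have := h a' ha' b hb
                          calc a * a' * (b * b') = a * (a' * b) * b' := by group
                            _ = a * b * (a' * b') := by rw [this]; group
                        inv_mem' := by
                          rintro y ⟨a, ha, b, hb, rfl⟩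
                          refine ⟨a⁻¹, A.inv_mem ha, b⁻¹, B.inv_mem hb, ?_⟩
                          have := h a ha b hb
                          rw [this, mul_inv_rev] } : Subgroup G) := by
    apply sup_le
    · intro a ha
      exact ⟨a, ha, 1, B.one_mem, mul_one a⟩
    · intro b hb
      exact ⟨1, A.one_mem, b, hb, one_mul b⟩
  exact key hx

theorem FAC (h1 : AC_stmt) (h2 : DJ_stmt) (h3 : PRO_stmt) : FAC_stmt := by
  intro G _ _ p hp ι _ L hL U hU c hc hA hC
  obtain ⟨a1, a2, a3, a4, a5, a6, a7⟩ := h1 G p hp ι L hL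
  obtain ⟨d1, d2, d3⟩ := h2 G p hp ι L hL
  have hLB : ∀ i j, i ≠ j → L j ≤ BJ L ({i} : Set ι) := by
    intro i j hij x hx
    refine ⟨(a4 j x hx).2.1, ?_⟩
    intro k hk z hz
    rw [Set.mem_singleton_iff] at hk
    subst hk
    exact (hL.comm k j hij z hz x hx).symm
  have hCB : ∀ i, Cc L ≤ BJ L ({i} : Set ι) := by
    intro i x hx
    exact ⟨(a5 x hx).1, fun k _ z hz => hx k z hz⟩
  have hHB : ∀ (J : Set ι) (i : ι), i ∉ J → FAC_H L J ≤ BJ L ({i} : Set ι) := by
    intro J i hi
    unfold FAC_H NJ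
    refine sup_le (iSup_le fun j => iSup_le fun hj => ?_) (hCB i)
    apply hLB
    rintro rfl
    exact hi hj
  have hdir : ∀ (J : Set ι) (i : ι), i ∉ J → Dir (L i) (FAC_H L J) := by
    intro J i hi
    have e := (d1 ({i} : Set ι)).1
    rw [FAC_NJ_single] at e
    refine ⟨fun a ha b hb => e.1 a ha b (hHB J i hi hb), ?_⟩
    apply le_bot_iff.1
    rw [← e.2]
    exact inf_le_inf le_rfl (hHB J i hi)
  have hNp : ∀ (J : Set ι), ∀ h ∈ FAC_H L J, h ∈ Np L := by
    intro J h hh
    have : FAC_H L J ≤ Np L := by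
      unfold FAC_H NJ
      refine sup_le (iSup_le fun j => iSup_le fun hj => ?_) ?_
      · intro x hx
        exact (a4 j x hx).2.1
      · intro x hx
        exact (a5 x hx).1
    exact this hh
  have hpr1 : ∀ (J : Set ι) (i : ι), i ∉ J → ∀ h ∈ FAC_H L J, pr L i h = 1 := by
    intro J i hi h hh
    rw [a7 i h (hNp J h hh)]
    intro z hz
    exact ((hdir J i hi).1 z hz h hh).symm
  have hNJH : ∀ J : Set ι, NJ L J ≤ FAC_H L J := fun J => le_sup_left
  have hCH : ∀ J : Set ι, Cc L ≤ FAC_H L J := fun J => le_sup_right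
  -- the step
  have hstep : ∀ (J : Set ι) (i : ι), i ∉ J →
      ∑ g ∈ FAC_X L U c (insert i J), Ls p (FAC_H L (insert i J)) g =
        - ((∑ u ∈ FS (fun u : G => u ∈ U i), Ls p (L i) u) *
          ∑ g ∈ FAC_X L U c J, Ls p (FAC_H L J) g) := by
    intro J i hi
    rw [Finset.sum_mul_sum, ← Finset.sum_product', ← Finset.sum_neg_distrib]
    symm
    refine Finset.sum_bij (fun x _ => x.1 * x.2) ?_ ?_ ?_ ?_
    · rintro ⟨a, h⟩ hx
      rw [Finset.mem_product, mem_FS] at hx
      obtain ⟨ha, hh⟩ := hx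
      unfold FAC_X at hh
      rw [mem_FS] at hh
      obtain ⟨k1, k2, k3⟩ := hh
      have haL : a ∈ L i := hU.sub i a ha
      have haN : a ∈ Np L := (a4 i a haL).2.1
      unfold FAC_X
      rw [mem_FS]
      refine ⟨?_, ?_, ?_⟩
      · rw [FAC_H_insert]
        exact Subgroup.mul_mem _ (Subgroup.mem_sup_left haL) (Subgroup.mem_sup_right k1)
      · rw [FAC_NJ_insert, mul_assoc]
        exact Subgroup.mul_mem _ (Subgroup.mem_sup_left haL) (Subgroup.mem_sup_right k2)
      · intro j hj
        rw [a3 j a haN h (hNp J h k1)]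
        rcases Set.mem_insert_iff.1 hj with rfl | hj'
        · rw [hpr1 J j hi h k1, mul_one, (a4 j a haL).1]
          exact ha
        · have hji : j ≠ i := by
            rintro rfl
            exact hi hj'
          rw [(a4 i a haL).2.2 j hji, one_mul]
          exact k3 j hj'
    · rintro ⟨a, h⟩ hx ⟨a', h'⟩ hx' heq
      rw [Finset.mem_product, mem_FS] at hx hx'
      obtain ⟨ha, hh⟩ := hx
      obtain ⟨ha', hh'⟩ := hx'
      unfold FAC_X at hh hh'
      rw [mem_FS] at hh hh'
      have haL : a ∈ L i := hU.sub i a ha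
      have haL' : a' ∈ L i := hU.sub i a' ha'
      have e1 : a * h = a' * h' := heq
      have e2 : a'⁻¹ * a = h' * h⁻¹ := by
        rw [inv_mul_eq_iff_eq_mul, ← mul_assoc, ← e1, mul_inv_cancel_right]
      have e3 : a'⁻¹ * a ∈ L i ⊓ FAC_H L J := by
        refine Subgroup.mem_inf.2 ⟨Subgroup.mul_mem _ (Subgroup.inv_mem _ haL') haL, ?_⟩
        rw [e2]
        exact Subgroup.mul_mem _ hh'.1 (Subgroup.inv_mem _ hh.1)
      rw [(hdir J i hi).2, Subgroup.mem_bot] at e3
      have e4 : a = a' := by
        rw [inv_mul_eq_one] at e3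
        exact e3.symm
      rw [e4] at e1
      rw [e4, mul_left_cancel e1]
    · intro g hg
      unfold FAC_X at hg
      rw [mem_FS, FAC_H_insert, FAC_NJ_insert] at hg
      obtain ⟨k1, k2, k3⟩ := hg
      have hcomm : ∀ a ∈ L i, ∀ b ∈ FAC_H L J, a * b = b * a := (hdir J i hi).1
      obtain ⟨a, ha, h, hh, hg⟩ := FAC_sup (L i) (FAC_H L J) hcomm k1
      have haN : a ∈ Np L := (a4 i a ha).2.1
      have q1 : pr L i g = a := by
        rw [← hg, a3 i a haN h (hNp J h hh), hpr1 J i hi h hh, mul_one, (a4 i a ha).1]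
      have q2 : a ∈ U i := by
        have := k3 i (Set.mem_insert i J)
        rwa [q1] at this
      have q3 : h * c⁻¹ ∈ NJ L J := by
        have r1 : h * c⁻¹ ∈ L i ⊔ NJ L J := by
          have r2 : h * c⁻¹ = a⁻¹ * (g * c⁻¹) := by
            rw [← hg]
            group
          rw [r2]
          exact Subgroup.mul_mem _ (Subgroup.mem_sup_left (Subgroup.inv_mem _ ha)) k2
        obtain ⟨b, hb, n, hn, hbn⟩ := FAC_sup (L i) (NJ L J)
          (fun x hx y hy => hcomm x hx y (hNJH J hy)) r1
        have r3 : b ∈ L i ⊓ FAC_H L J := by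
          refine Subgroup.mem_inf.2 ⟨hb, ?_⟩
          have r4 : b = h * c⁻¹ * n⁻¹ := by
            rw [← hbn, mul_inv_cancel_right]
          rw [r4]
          exact Subgroup.mul_mem _ (Subgroup.mul_mem _ hh (Subgroup.inv_mem _ (hCH J hc)))
            (Subgroup.inv_mem _ (hNJH J hn))
        rw [(hdir J i hi).2, Subgroup.mem_bot] at r3
        rw [r3, one_mul] at hbn
        rw [← hbn]
        exact hn
      refine ⟨(a, h), ?_, hg⟩
      rw [Finset.mem_product, mem_FS]
      refine ⟨q2, ?_⟩
      unfold FAC_X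
      rw [mem_FS]
      refine ⟨hh, q3, fun j hj => ?_⟩
      have hji : j ≠ i := by
        rintro rfl
        exact hi hj
      have := k3 j (Set.mem_insert_of_mem i hj)
      rwa [← hg, a3 j a haN h (hNp J h hh), (a4 i a ha).2.2 j hji, one_mul] at this
    · rintro ⟨a, h⟩ hx
      rw [Finset.mem_product, mem_FS] at hx
      obtain ⟨ha, hh⟩ := hx
      unfold FAC_X at hh
      rw [mem_FS] at hh
      rw [FAC_H_insert, h3 G p (L i) (FAC_H L J) (hdir J i hi) a (hU.sub i a ha) h hh.1]
  have hall : ∀ J : Set ι, ∑ g ∈ FAC_X L U c J, Ls p (FAC_H L J) g ≠ 0 := by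
    intro J
    refine Set.Finite.induction_on J (Set.toFinite J) ?_ ?_
    · have e1 : FAC_X L U c (∅ : Set ι) = {c} := by
        ext g
        unfold FAC_X
        rw [mem_FS, Finset.mem_singleton, FAC_NJ_empty, Subgroup.mem_bot, mul_inv_eq_one]
        constructor
        · exact fun h => h.2.1
        · rintro rfl
          exact ⟨hCH _ hc, rfl, fun j hj => absurd hj (Set.notMem_empty j)⟩
      have e2 : FAC_H L (∅ : Set ι) = Cc L := by
        unfold FAC_H
        rw [FAC_NJ_empty, bot_sup_eq]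
      rw [e1, Finset.sum_singleton, e2]
      exact hC
    · intro i J hi _ ih
      rw [hstep J i hi]
      exact neg_ne_zero.2 (mul_ne_zero (hA i) ih)
  have e1 : FAC_H L (Set.univ : Set ι) = Np L := by
    unfold FAC_H
    rw [← d3]
    exact (d1 Set.univ).2
  have e2 : GU L U c (Np L) = FAC_X L U c (Set.univ : Set ι) := by
    ext g
    unfold GU FAC_X
    rw [mem_FS, mem_FS, e1]
    simp only [Set.mem_univ, forall_true_left]
  have := hall Set.univ
  rw [e1] at this
  rw [e2]
  exact this

end LEQ
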